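import Pool.Agent.Lib.MP_cd9307_al.Main

universe u

open Pool.Agent.Lib.MP_cd9307_al

namespace Pool.Agent.Results.MP_cd9307_al.AdjoinInfinity

/-- If a semiring `S` is finitely based, then so is `S ∪ {∞}`. -/
theorem result (S : Type u) [Add S] [Mul S] (hS : IsSemiring S) (h : FinitelyBased S) :
    FinitelyBased (AdjInf S) :=
  finitelyBased_adjInf hS h

end Pool.Agent.Results.MP_cd9307_al.AdjoinInfinity
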